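import Pool.Agent.W896.FD.Ident

/-!
# Distances in weighted digraphs, and circuits of small formal degree
-/

set_option autoImplicit false
set_option maxHeartbeats 1000000

open Finset

namespace Pool.Agent.R617.FDA

open Pool.Agent.W896.RK Pool.Agent.W896.HP Pool.Agent.W896.FD Pool.Agent.W896.FD.Star

/-- The bits of the weights of the arcs: two bits for every ordered pair of vertices. -/
abbrev Bits (N : ℕ) := Fin N × Fin N × Fin 2

/-- The weight of the arc from `x` to `y`, a number in `{1, 2, 3, 4}`; the bits are the binary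
representation of the weight minus one. -/
def wt {N : ℕ} (β : Bits N → Bool) (x y : Fin N) : ℕ :=
  1 + (if β (x, y, 0) = true then 1 else 0) + (if β (x, y, 1) = true then 2 else 0)

/-- There is a walk from `x` to `y` of total weight `c`. -/
inductive Walk {N : ℕ} (W : Fin N → Fin N → ℕ) : Fin N → Fin N → ℕ → Prop
  | nil (x : Fin N) : Walk W x x 0
  | cons {x y z : Fin N} {c : ℕ} (hxy : x ≠ y) (h : Walk W y z c) : Walk W x z (W x y + c)

/-- The distance from `x` to `y`: the smallest total weight of a walk. -/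
noncomputable def dist {N : ℕ} (W : Fin N → Fin N → ℕ) (x y : Fin N) : ℕ :=
  sInf {c | Walk W x y c}

variable {n b N : ℕ}

theorem wt_pos (β : Bits N → Bool) (x y : Fin N) : 1 ≤ wt β x y := by
  unfold wt; omega

theorem wt_le (β : Bits N → Bool) (x y : Fin N) : wt β x y ≤ 4 := by
  unfold wt; split_ifs <;> omega

theorem walk_single (W : Fin N → Fin N → ℕ) {x y : Fin N} (h : x ≠ y) : Walk W x y (W x y) := by
  have := Walk.cons (W := W) h (Walk.nil y)
  rwa [add_zero] at this

theorem dist_walk (W : Fin N → Fin N → ℕ) {x y : Fin N} (h : x ≠ y) : Walk W x y (dist W x y) :=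
  Nat.sInf_mem (s := {c | Walk W x y c}) ⟨_, walk_single W h⟩

theorem dist_le {W : Fin N → Fin N → ℕ} {x y : Fin N} {c : ℕ} (h : Walk W x y c) :
    dist W x y ≤ c := Nat.sInf_le h

/-- The kinds of the vertices: the two ends, and two copies of `Fin n`. -/
abbrev Kd (n : ℕ) := Bool ⊕ (Bool × Fin n)

/-- Two positions are matched. -/
def Mt (c : Fin b × Fin 4 → Fin n) (ρ : Equiv.Perm (Fin n)) (v w : Fin n) : Prop :=
  ∃ i, (v = ρ (c (i, 0)) ∧ w = ρ (c (i, 2))) ∨ (v = ρ (c (i, 2)) ∧ w = ρ (c (i, 0)))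

/-- the class of a bit -/
noncomputable def cls (φ : Kd n → Fin N) (v : Bits N) : Option (Fin n) :=
  match idx φ v.1, idx φ v.2.1 with
  | some (.inl false), some (.inr (false, v)) => some v
  | some (.inr (true, v)), some (.inl true) => some v
  | _, _ => none

open Classical in
/-- the other bits -/
noncomputable def oth (φ : Kd n → Fin N) (c : Fin b × Fin 4 → Fin n) (ρ : Equiv.Perm (Fin n))
    (v : Bits N) : Bool :=
  match idx φ v.1, idx φ v.2.1 with
  | some (.inr (false, v)), some (.inr (true, w)) => !decide (Mt c ρ v w)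
  | _, _ => true

/-- the instance -/
noncomputable def ins (φ : Kd n → Fin N) (c : Fin b × Fin 4 → Fin n) (ρ : Equiv.Perm (Fin n))
    (z z' : Fin b → Bool) : Bits N → Bool :=
  inI true (cls φ) (oth φ c) c ρ z z'

section inst

variable {φ : Kd n → Fin N} (hφ : Function.Injective φ) (c : Fin b × Fin 4 ↪ Fin n)
  (ρ : Equiv.Perm (Fin n)) (z z' : Fin b → Bool)

include hφ

theorem ins_sa (v : Fin n) (j : Fin 2) :
    ins φ c ρ z z' (φ (.inl false), φ (.inr (false, v)), j) = grS true c z z' (ρ.symm v) := by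
  unfold ins inI cls
  simp only [idx_apply hφ]

theorem ins_bt (v : Fin n) (j : Fin 2) :
    ins φ c ρ z z' (φ (.inr (true, v)), φ (.inl true), j) = grS true c z z' (ρ.symm v) := by
  unfold ins inI cls
  simp only [idx_apply hφ]

open Classical in
theorem ins_ab (v w : Fin n) (j : Fin 2) :
    ins φ c ρ z z' (φ (.inr (false, v)), φ (.inr (true, w)), j) = !decide (Mt c ρ v w) := by
  unfold ins inI cls oth
  simp only [idx_apply hφ]

omit hφ in
/-- the arcs of weight one -/
theorem ins_one {x y : Fin N} (h : wt (ins φ c ρ z z') x y ≤ 3) :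
    (∃ v, x = φ (.inl false) ∧ y = φ (.inr (false, v)) ∧ grS true c z z' (ρ.symm v) = false) ∨
    (∃ v w, x = φ (.inr (false, v)) ∧ y = φ (.inr (true, w)) ∧ Mt c ρ v w) ∨
    (∃ v, x = φ (.inr (true, v)) ∧ y = φ (.inl true) ∧ grS true c z z' (ρ.symm v) = false) := by
  classical
  have h1 : ins φ c ρ z z' (x, y, 0) = false ∨ ins φ c ρ z z' (x, y, 1) = false := by
    by_contra hcon
    rw [not_or, Bool.not_eq_false, Bool.not_eq_false] at hcon
    unfold wt at h
    rw [if_pos hcon.1, if_pos hcon.2] at h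
    omega
  have key : ∀ j : Fin 2, ins φ c ρ z z' (x, y, j) = false →
      (∃ v, x = φ (.inl false) ∧ y = φ (.inr (false, v)) ∧
        grS true c z z' (ρ.symm v) = false) ∨
      (∃ v w, x = φ (.inr (false, v)) ∧ y = φ (.inr (true, w)) ∧ Mt c ρ v w) ∨
      (∃ v, x = φ (.inr (true, v)) ∧ y = φ (.inl true) ∧
        grS true c z z' (ρ.symm v) = false) := by
    intro j hj
    unfold ins inI cls oth at hj
    simp only at hj
    rcases hx : idx φ x with _ | (_ | _) | ⟨_ | _, v⟩ <;>
      rcases hy : idx φ y with _ | (_ | _) | ⟨_ | _, w⟩ <;>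
      simp only [hx, hy, reduceCtorEq, Bool.not_eq_false', decide_eq_true_eq] at hj
    · exact Or.inl ⟨w, (idx_some hx).symm, (idx_some hy).symm, hj⟩
    · exact Or.inr (Or.inl ⟨v, w, (idx_some hx).symm, (idx_some hy).symm, hj⟩)
    · exact Or.inr (Or.inr ⟨v, (idx_some hx).symm, (idx_some hy).symm, hj⟩)
  rcases h1 with h1 | h1
  · exact key 0 h1
  · exact key 1 h1

/-- a short walk uses a matched pair -/
theorem short {e : ℕ} (he : e ≤ 3)
    (h : Walk (wt (ins φ c ρ z z')) (φ (.inl false)) (φ (.inl true)) e) :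
    ∃ v w, Mt c ρ v w ∧ grS true c z z' (ρ.symm v) = false ∧
      grS true c z z' (ρ.symm w) = false := by
  obtain ⟨s, hs⟩ : ∃ s, s = φ (.inl false) := ⟨_, rfl⟩
  obtain ⟨t, ht⟩ : ∃ t, t = φ (.inl true) := ⟨_, rfl⟩
  rw [← hs, ← ht] at h
  cases h with
  | nil =>
    have := hφ (hs.symm.trans ht)
    simp at this
  | @cons _ y _ e1 hxy h =>
    have p1 := wt_pos (ins φ c ρ z z') s y
    have h1 := ins_one (φ := φ) c ρ z z' (x := s) (y := y) (by omega)
    rw [hs] at h1
    have h1' : ∃ v, y = φ (.inr (false, v)) ∧ grS true c z z' (ρ.symm v) = false := by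
      rcases h1 with ⟨v, -, h2, h3⟩ | ⟨v, w, h2, -⟩ | ⟨v, h2, -⟩
      · exact ⟨v, h2, h3⟩
      · have := hφ h2; simp at this
      · have := hφ h2; simp at this
    obtain ⟨v, hy, hv⟩ := h1'
    cases h with
    | nil =>
      have := hφ (hy.symm.trans ht)
      simp at this
    | @cons _ y2 _ e2 hxy2 h =>
      have p2 := wt_pos (ins φ c ρ z z') y y2
      have h1 := ins_one (φ := φ) c ρ z z' (x := y) (y := y2) (by omega)
      rw [hy] at h1
      have h1' : ∃ w, y2 = φ (.inr (true, w)) ∧ Mt c ρ v w := by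
        rcases h1 with ⟨v', h2, -, -⟩ | ⟨v', w, h2, h3, h4⟩ | ⟨v', h2, -⟩
        · have := hφ h2; simp at this
        · have := hφ h2
          simp only [Sum.inr.injEq, Prod.mk.injEq, true_and] at this
          rw [← this] at h4
          exact ⟨w, h3, h4⟩
        · have := hφ h2; simp at this
      obtain ⟨w, hy2, hvw⟩ := h1'
      cases h with
      | nil =>
        have := hφ (hy2.symm.trans ht)
        simp at this
      | @cons _ y3 _ e3 hxy3 h =>
        have p3 := wt_pos (ins φ c ρ z z') y2 y3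
        have h1 := ins_one (φ := φ) c ρ z z' (x := y2) (y := y3) (by omega)
        rw [hy2] at h1
        rcases h1 with ⟨v', h2, -, -⟩ | ⟨v', w', h2, h3, h4⟩ | ⟨v', h2, -, h4⟩
        · have := hφ h2; simp at this
        · have := hφ h2
          simp at this
        · have := hφ h2
          simp only [Sum.inr.injEq, Prod.mk.injEq, true_and] at this
          rw [← this] at h4
          exact ⟨v, w, hvw, hv, h4⟩

omit hφ in
theorem wt_one {x y : Fin N} (h : ∀ j, ins φ c ρ z z' (x, y, j) = false) :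
    wt (ins φ c ρ z z') x y = 1 := by
  unfold wt
  rw [if_neg (by rw [h]; exact Bool.false_ne_true), if_neg (by rw [h]; exact Bool.false_ne_true)]

omit hφ in
theorem grS_0 (i : Fin b) : grS true c z z' (c (i, 0)) = z i := by
  unfold grS
  exact fill_apply (prS_inj c.injective) _ _ (.inl i)

omit hφ in
theorem grS_2 (i : Fin b) : grS true c z z' (c (i, 2)) = !z' i := by
  unfold grS
  refine (fill_apply (prS_inj c.injective) (fun _ => false)
    (Sum.elim z (fun i => xor true (z' i))) (.inr i)).trans ?_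
  change xor true (z' i) = _
  rw [Bool.true_xor]

/-- Equal states: the distance is four. -/
theorem far : 4 ≤ dist (wt (ins φ c ρ z z)) (φ (.inl false)) (φ (.inl true)) := by
  by_contra hcon
  have hne : φ (.inl false) ≠ φ (.inl true) := fun h => by
    have := hφ h
    simp at this
  obtain ⟨v, w, ⟨i, ⟨h1, h2⟩ | ⟨h1, h2⟩⟩, h3, h4⟩ :=
    short hφ c ρ z z (by omega) (dist_walk _ hne)
  · rw [h1, Equiv.symm_apply_apply, grS_0] at h3
    rw [h2, Equiv.symm_apply_apply, grS_2, h3] at h4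
    exact Bool.noConfusion h4
  · rw [h1, Equiv.symm_apply_apply, grS_2] at h3
    rw [h2, Equiv.symm_apply_apply, grS_0] at h4
    rw [h4] at h3
    exact Bool.noConfusion h3

/-- Different states: the distance is three. -/
theorem near {i : Fin b} (h : z i = false) (h' : z' i = true) :
    ¬ 4 ≤ dist (wt (ins φ c ρ z z')) (φ (.inl false)) (φ (.inl true)) := by
  classical
  have hM : Mt c ρ (ρ (c (i, 0))) (ρ (c (i, 2))) := ⟨i, Or.inl ⟨rfl, rfl⟩⟩
  have w1 : wt (ins φ c ρ z z') (φ (.inl false)) (φ (.inr (false, ρ (c (i, 0))))) = 1 :=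
    wt_one c ρ z z' fun j => by
      rw [ins_sa hφ, Equiv.symm_apply_apply, grS_0, h]
  have w2 : wt (ins φ c ρ z z') (φ (.inr (false, ρ (c (i, 0)))))
      (φ (.inr (true, ρ (c (i, 2))))) = 1 :=
    wt_one c ρ z z' fun j => by
      rw [ins_ab hφ, decide_eq_true hM]; rfl
  have w3 : wt (ins φ c ρ z z') (φ (.inr (true, ρ (c (i, 2))))) (φ (.inl true)) = 1 :=
    wt_one c ρ z z' fun j => by
      rw [ins_bt hφ, Equiv.symm_apply_apply, grS_2, h']; rfl
  have n1 : φ (.inl false) ≠ φ (.inr (false, ρ (c (i, 0)))) := fun h => by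
    have := hφ h; simp at this
  have n2 : φ (.inr (false, ρ (c (i, 0)))) ≠ φ (.inr (true, ρ (c (i, 2)))) := fun h => by
    have := hφ h; simp at this
  have n3 : φ (.inr (true, ρ (c (i, 2)))) ≠ φ (.inl true) := fun h => by
    have := hφ h; simp at this
  have hw := Walk.cons (W := wt (ins φ c ρ z z')) n1 (Walk.cons n2 (Walk.cons n3 (Walk.nil _)))
  rw [w1, w2, w3] at hw
  have := dist_le hw
  omega

end inst

open Classical in
/-- the formal degrees in the bits of the arcs from `s` and the arcs to `t` -/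
theorem sum_cls (φ : Kd n → Fin N) (d : Bits N → ℕ) :
    ∑ v with cls φ v ≠ none, d v ≤
      ∑ x, ∑ j, (d (φ (.inl false), x, j) + d (x, φ (.inl true), j)) := by
  have hsub : (univ.filter fun v : Bits N => cls φ v ≠ none) ⊆
      (univ : Finset (Fin N × Fin 2)).image (fun x => (φ (.inl false), x.1, x.2)) ∪
      (univ : Finset (Fin N × Fin 2)).image (fun x => (x.1, φ (.inl true), x.2)) := by
    rintro ⟨x, y, j⟩ hv
    rw [mem_filter] at hv
    have h := hv.2
    unfold cls at h
    rw [mem_union]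
    rcases hx : idx φ x with _ | (_ | _) | ⟨_ | _, v⟩ <;>
      rcases hy : idx φ y with _ | (_ | _) | ⟨_ | _, w⟩ <;>
      simp only [hx, hy, ne_eq, not_true_eq_false] at h
    · left
      rw [mem_image]
      exact ⟨(y, j), mem_univ _, by simp only; rw [idx_some hx]⟩
    · right
      rw [mem_image]
      exact ⟨(x, j), mem_univ _, by simp only; rw [idx_some hy]⟩
  refine (sum_le_sum_of_subset hsub).trans ?_
  have h1 := sum_union_inter (f := d)
    (s₁ := (univ : Finset (Fin N × Fin 2)).image (fun x => (φ (.inl false), x.1, x.2)))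
    (s₂ := (univ : Finset (Fin N × Fin 2)).image (fun x => (x.1, φ (.inl true), x.2)))
  rw [sum_image (by
    rintro ⟨x, j⟩ - ⟨x', j'⟩ - h
    simp only [Prod.mk.injEq, true_and] at h
    exact Prod.ext h.1 h.2), sum_image (by
    rintro ⟨x, j⟩ - ⟨x', j'⟩ - h
    simp only [Prod.mk.injEq, true_and] at h
    exact Prod.ext h.1 h.2), ← sum_add_distrib, Fintype.sum_prod_type] at h1
  exact (Nat.le_add_right _ _).trans h1.le

/-- an embedding of the kinds with given ends -/
theorem exists_phi (hN : 2 * n + 2 ≤ N) {s t : Fin N} (hst : s ≠ t) :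
    ∃ φ : Kd n → Fin N, Function.Injective φ ∧ φ (.inl false) = s ∧ φ (.inl true) = t := by
  obtain ⟨e⟩ : Nonempty (Kd n ↪ Fin N) := by
    apply Function.Embedding.nonempty_of_card_le
    rw [Fintype.card_sum, Fintype.card_prod, Fintype.card_bool, Fintype.card_fin, Fintype.card_fin]
    omega
  obtain ⟨e1, he1⟩ : ∃ e1 : Kd n → Fin N, e1 = fun x => Equiv.swap (e (.inl false)) s (e x) :=
    ⟨_, rfl⟩
  have hi1 : Function.Injective e1 := by
    rw [he1]; exact (Equiv.injective _).comp e.injective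
  have h1 : e1 (.inl false) = s := by rw [he1]; exact Equiv.swap_apply_left _ _
  have h2 : e1 (.inl true) ≠ s := by
    rw [← h1]
    intro h
    have := hi1 h
    simp at this
  refine ⟨fun x => Equiv.swap (e1 (.inl true)) t (e1 x), (Equiv.injective _).comp hi1, ?_, ?_⟩
  · change Equiv.swap (e1 (.inl true)) t (e1 (.inl false)) = s
    rw [h1]
    exact Equiv.swap_apply_of_ne_of_ne (Ne.symm h2) hst
  · exact Equiv.swap_apply_left _ _

/-- **One distance.** -/
theorem pair (k N : ℕ) {s t : Fin N} (hst : s ≠ t) (R : Type) [Fintype R] [Nonempty R]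
    (U : R → Circ (Bits N))
    (hU : ∀ r β, (U r).Val β (U r).out → 4 ≤ dist (wt β) s t)
    (hc : ∀ β : Bits N → Bool, 4 ≤ dist (wt β) s t →
      Nat.card R ≤ 2 ^ (N / 2 ^ (300 * (k + 1))) * Nat.card {r // (U r).Val β (U r).out})
    (hd : ∀ r, ∃ d : (U r).G → Bits N → ℕ, IsDeg (U r) id d ∧
      ∑ x, ∑ j, (d (U r).out (s, x, j) + d (U r).out (x, t, j)) ≤ k * N) :
    ∃ r, N ≤ 2 ^ (300 * (k + 1)) * (Nat.log 2 (Fintype.card (U r).G) + 1) := by
  classical
  obtain ⟨D, hD⟩ : ∃ D, D = 2 ^ (60 * (5 * k + 1)) := ⟨_, rfl⟩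
  have hDpos : 0 < D := by rw [hD]; exact Nat.two_pow_pos _
  have hDbig : 5 * D ≤ 2 ^ (300 * (k + 1)) := by
    calc 5 * D ≤ 2 ^ 240 * D := Nat.mul_le_mul_right _ (by norm_num)
      _ = 2 ^ (300 * (k + 1)) := by rw [hD, ← pow_add]; congr 1; ring
  rcases Nat.lt_or_ge N 4 with hN | hN
  · obtain ⟨r⟩ := (inferInstance : Nonempty R)
    refine ⟨r, ?_⟩
    have h1 : 1 ≤ D * (Nat.log 2 (Fintype.card (U r).G) + 1) := Nat.mul_pos hDpos (by omega)
    calc N ≤ 5 * (D * (Nat.log 2 (Fintype.card (U r).G) + 1)) := by omega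
      _ = 5 * D * (Nat.log 2 (Fintype.card (U r).G) + 1) := by ring
      _ ≤ _ := Nat.mul_le_mul_right _ hDbig
  obtain ⟨n, hn⟩ : ∃ n, n = (N - 2) / 2 := ⟨_, rfl⟩
  have hn1 : 2 * n + 2 ≤ N := by omega
  have hn2 : N ≤ 5 * n := by omega
  obtain ⟨φ, hφ, rfl, rfl⟩ := exists_phi hn1 hst
  obtain ⟨b, hb⟩ : ∃ b, b = n / 4 := ⟨_, rfl⟩
  have hb1 : n < 4 * (b + 1) := by rw [hb]; exact Nat.lt_mul_div_succ n (by norm_num)
  have hb2 : 4 * b ≤ n := by rw [hb]; exact Nat.mul_div_le _ _
  obtain ⟨c⟩ : Nonempty (Fin b × Fin 4 ↪ Fin n) := by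
    apply Function.Embedding.nonempty_of_card_le
    rw [Fintype.card_prod, Fintype.card_fin, Fintype.card_fin, Fintype.card_fin]
    omega
  have hq : N / 2 ^ (300 * (k + 1)) ≤ n / 2 ^ (60 * (5 * k + 1)) := by
    rw [← hD, Nat.le_div_iff_mul_le hDpos]
    have h1 : N / 2 ^ (300 * (k + 1)) * 2 ^ (300 * (k + 1)) ≤ N := Nat.div_mul_le_self _ _
    have h2 : N / 2 ^ (300 * (k + 1)) * (5 * D) ≤ N :=
      le_trans (Nat.mul_le_mul_left _ hDbig) h1
    have h3 : N / 2 ^ (300 * (k + 1)) * (5 * D) = 5 * (N / 2 ^ (300 * (k + 1)) * D) := by ring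
    omega
  obtain ⟨r, hr⟩ := finalI (ν := true) (5 * k) (b := b) (by omega) (cls φ) (oth φ c) c
    (fun ρ z z' => 4 ≤ dist (wt (ins φ c ρ z z')) (φ (.inl false)) (φ (.inl true))) 0
    (by rw [vol_zero]; exact Nat.one_le_two_pow)
    (by
      rintro ρ z z' h ⟨h1, h2⟩
      unfold dst at h
      obtain ⟨i, hi⟩ := card_pos.1 h
      have hi' := (mem_filter.1 hi).2
      cases hz : z i with
      | true =>
        cases hz' : z' i with
        | true => exact hi' (by rw [hz, hz'])
        | false => exact near hφ c ρ z' z hz' hz h2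
      | false =>
        cases hz' : z' i with
        | true => exact near hφ c ρ z z' hz hz' h1
        | false => exact hi' (by rw [hz, hz']))
    R U (fun r ρ z z' h => hU r _ h)
    (fun ρ z => (hc _ (far hφ c ρ z)).trans
      (Nat.mul_le_mul_right _ (Nat.pow_le_pow_right (by norm_num) hq)))
    (fun r => by
      obtain ⟨d, hd1, hd2⟩ := hd r
      refine ⟨d, hd1, ?_⟩
      refine le_trans (le_of_eq ?_) ((sum_cls φ (d (U r).out)).trans (hd2.trans ?_))
      · congr 1
      · calc k * N ≤ k * (5 * n) := Nat.mul_le_mul_left _ hn2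
          _ = 5 * k * n := by ring)
  refine ⟨r, ?_⟩
  rw [← hD] at hr
  calc N ≤ 5 * n := hn2
    _ ≤ 5 * (D * (Nat.log 2 (Fintype.card (U r).G) + 1)) := Nat.mul_le_mul_left _ hr
    _ = 5 * D * (Nat.log 2 (Fintype.card (U r).G) + 1) := by ring
    _ ≤ _ := Nat.mul_le_mul_right _ hDbig

/-- another output gate -/
def out {V : Type} (U : Circ V) (g : U.G) : Circ V := { U with out := g }

theorem val_out {V : Type} (U : Circ V) (g : U.G) {x : V → Bool} :
    (out U g).Val x (out U g).out ↔ U.Val x g := by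
  have h1 : ∀ g' : (out U g).G, (out U g).Val x g' → Circ.Val U x g' := by
    intro g' h
    induction h with
    | lit e h => exact Circ.Val.lit (U := U) e h
    | and e _ _ iha ihb => exact Circ.Val.and (U := U) e iha ihb
    | any e ha _ ih => exact Circ.Val.any (U := U) e ha ih
  have h2 : ∀ g' : U.G, U.Val x g' → Circ.Val (out U g) x g' := by
    intro g' h
    induction h with
    | lit e h => exact Circ.Val.lit (U := out U g) e h
    | and e _ _ iha ihb => exact Circ.Val.and (U := out U g) e iha ihb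
    | any e ha _ ih => exact Circ.Val.any (U := out U g) e ha ih
  exact ⟨h1 g, h2 g⟩

/-- **All distances.** -/
theorem all (k N : ℕ) (hN : 2 ≤ N) (U : Circ (Bits N)) (o : Fin N → Fin N → U.G)
    (hU : ∀ (β : Bits N → Bool) (s t : Fin N), s ≠ t → (U.Val β (o s t) ↔ 4 ≤ dist (wt β) s t))
    (hd : ∃ d : U.G → Bits N → ℕ, IsDeg U id d ∧
      ∑ s, ∑ t, ∑ x, ∑ j, (d (o s t) (s, x, j) + d (o s t) (x, t, j)) ≤ k * N ^ 3) :
    N ≤ 2 ^ (600 * (k + 1)) * (Nat.log 2 (Fintype.card U.G) + 1) := by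
  classical
  obtain ⟨d, hd1, hd2⟩ := hd
  obtain ⟨s, t, hst, h⟩ : ∃ s t : Fin N, s ≠ t ∧
      ∑ x, ∑ j, (d (o s t) (s, x, j) + d (o s t) (x, t, j)) ≤ 2 * k * N := by
    by_contra hcon
    push Not at hcon
    obtain ⟨F, hF⟩ : ∃ F : Fin N → Fin N → ℕ, F = fun s t =>
      ∑ x, ∑ j, (d (o s t) (s, x, j) + d (o s t) (x, t, j)) := ⟨_, rfl⟩
    have h1 : ∀ s t, s ≠ t → 2 * k * N + 1 ≤ F s t := by
      intro s t hst
      rw [hF]
      exact hcon s t hst
    have h2 : ∑ s, ∑ t, F s t ≤ k * N ^ 3 := by rw [hF]; exact hd2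
    have h3 : ∀ s : Fin N, (N - 1) * (2 * k * N + 1) ≤ ∑ t, F s t := by
      intro s
      calc (N - 1) * (2 * k * N + 1) = ∑ t ∈ univ.erase s, (2 * k * N + 1) := by
            rw [sum_const, card_erase_of_mem (mem_univ _), card_univ, Fintype.card_fin,
              smul_eq_mul]
        _ ≤ ∑ t ∈ univ.erase s, F s t := sum_le_sum fun t ht =>
            h1 s t (Ne.symm (ne_of_mem_erase ht))
        _ ≤ ∑ t, F s t := sum_le_sum_of_subset (erase_subset _ _)
    have h4 : N * ((N - 1) * (2 * k * N + 1)) ≤ ∑ s, ∑ t, F s t := by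
      calc N * ((N - 1) * (2 * k * N + 1)) = ∑ s : Fin N, (N - 1) * (2 * k * N + 1) := by
            rw [sum_const, card_univ, Fintype.card_fin, smul_eq_mul]
        _ ≤ _ := sum_le_sum fun s _ => h3 s
    obtain ⟨M, rfl⟩ : ∃ M, N = M + 2 := ⟨N - 2, by omega⟩
    have h5 : (M + 2) * ((M + 2 - 1) * (2 * k * (M + 2) + 1)) ≤ k * (M + 2) ^ 3 := h4.trans h2
    have e1 : M + 2 - 1 = M + 1 := by omega
    rw [e1] at h5
    nlinarith [Nat.zero_le (k * M), Nat.zero_le (k * M * M), Nat.zero_le (k * M * M * M)]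
  have hU' : ∀ β, (out U (o s t)).Val β (out U (o s t)).out ↔ 4 ≤ dist (wt β) s t := fun β =>
    (val_out U (o s t)).trans (hU β s t hst)
  obtain ⟨r, hr⟩ := pair (2 * k) N hst Unit (fun _ => out U (o s t))
    (fun _ β h => (hU' β).1 h) (fun β hβ => by
      have h2 : Nat.card {r : Unit // (out U (o s t)).Val β (out U (o s t)).out} = 1 := by
        rw [Nat.card_eq_one_iff_unique]
        exact ⟨⟨fun a b => Subtype.ext rfl⟩, ⟨⟨(), (hU' β).2 hβ⟩⟩⟩
      rw [h2, mul_one, Nat.card_unique]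
      exact Nat.one_le_two_pow) (fun _ => ⟨d, hd1, h⟩)
  refine hr.trans (Nat.mul_le_mul_right _ (Nat.pow_le_pow_right (by norm_num) (by omega)))

end Pool.Agent.R617.FDA
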